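import Mathlib
import Pool.Agent.H197R3.VN

set_option autoImplicit false

namespace Pool.Agent.Y276.Rig

open Pool.Agent.H197R3
open scoped InnerProductSpace ComplexConjugate

section alg
variable {G H : Type} [Group G] [Group H] (t : Twist G H)

/-- the algebra homomorphism of group algebras attached to a twist -/
noncomputable def algHom : MonoidAlgebra ℂ G →ₐ[ℂ] MonoidAlgebra ℂ H :=
  MonoidAlgebra.lift ℂ (MonoidAlgebra ℂ H) G t.θ

lemma algHom_single (g : G) (r : ℂ) : algHom t (MonoidAlgebra.single g r) = r • t.θ g := by
  rw [algHom, MonoidAlgebra.lift_single]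

lemma algHom_inj : Function.Injective (algHom t) := by
  rw [injective_iff_map_eq_zero]
  intro x hx
  have hli := (tw_orthonormal t).linearIndependent
  rw [linearIndependent_iff] at hli
  have key : ∀ x : MonoidAlgebra ℂ G,
      Finsupp.linearCombination ℂ (fun g => toL2 (t.θ g)) x.coeff = toL2 (algHom t x) := by
    intro x
    induction x using MonoidAlgebra.induction_linear with
    | zero => simp
    | add a b ha hb => rw [MonoidAlgebra.coeff_add, map_add, map_add, map_add, ha, hb]
    | single g r => rw [algHom_single, map_smul]; simp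
  have h1 := hli x.coeff (by rw [key, hx, map_zero])
  apply MonoidAlgebra.ext
  rw [h1]; rfl

lemma algHom_surj : Function.Surjective (algHom t) := by
  have h1 : Submodule.span ℂ (Set.range t.θ) ≤ (algHom t).toLinearMap.range := by
    rw [Submodule.span_le]
    rintro _ ⟨g, rfl⟩
    exact ⟨MonoidAlgebra.single g 1, by
      show algHom t _ = _
      rw [algHom_single, one_smul]⟩
  intro y
  suffices h : y ∈ (algHom t).toLinearMap.range from h
  induction y using MonoidAlgebra.induction_linear with
  | zero => exact Submodule.zero_mem _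
  | add a b ha hb => exact Submodule.add_mem _ ha hb
  | single k s =>
    have := Submodule.smul_mem _ s (h1 (t.sp k))
    rwa [MonoidAlgebra.smul_single, smul_eq_mul, mul_one] at this

/-- the isomorphism of complex group algebras attached to a twist -/
noncomputable def algEq : MonoidAlgebra ℂ G ≃ₐ[ℂ] MonoidAlgebra ℂ H :=
  AlgEquiv.ofBijective (algHom t) ⟨algHom_inj t, algHom_surj t⟩

lemma algEq_apply (x : MonoidAlgebra ℂ G) : algEq t x = algHom t x := rfl

/-- it preserves the canonical trace -/
lemma algEq_trace (x : MonoidAlgebra ℂ G) : (algEq t x).coeff 1 = x.coeff 1 := by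
  classical
  rw [algEq_apply]
  induction x using MonoidAlgebra.induction_linear with
  | zero => simp
  | add a b ha hb => rw [map_add, MonoidAlgebra.coeff_add, MonoidAlgebra.coeff_add,
      Finsupp.add_apply, Finsupp.add_apply, ha, hb]
  | single g r =>
    rw [algHom_single, MonoidAlgebra.coeff_smul, Finsupp.smul_apply, MonoidAlgebra.coeff_single,
      Finsupp.single_apply]
    split_ifs with h
    · subst h; simp
    · rw [t.tr g h, smul_zero]

/-- the involution of a complex group algebra -/
noncomputable def invo {G : Type} [Group G] (x : MonoidAlgebra ℂ G) : MonoidAlgebra ℂ G :=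
  MonoidAlgebra.ofCoeff
    ((x.coeff.mapRange (starRingEnd ℂ) (map_zero _)).equivMapDomain (Equiv.inv G))

lemma invo_coeff {G : Type} [Group G] (x : MonoidAlgebra ℂ G) (g : G) :
    (invo x).coeff g = conj (x.coeff g⁻¹) := by
  simp [invo, Finsupp.equivMapDomain_apply]

lemma invo_add {G : Type} [Group G] (x y : MonoidAlgebra ℂ G) : invo (x + y) = invo x + invo y := by
  apply MonoidAlgebra.ext
  ext g
  rw [invo_coeff, MonoidAlgebra.coeff_add, MonoidAlgebra.coeff_add, Finsupp.add_apply,
    Finsupp.add_apply, invo_coeff, invo_coeff, map_add]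

lemma invo_single {G : Type} [Group G] (g : G) (r : ℂ) :
    invo (MonoidAlgebra.single g r) = MonoidAlgebra.single g⁻¹ (conj r) := by
  classical
  apply MonoidAlgebra.ext
  ext h
  rw [invo_coeff, MonoidAlgebra.coeff_single, MonoidAlgebra.coeff_single, Finsupp.single_apply,
    Finsupp.single_apply]
  by_cases h1 : g = h⁻¹
  · subst h1; simp
  · have : ¬ g⁻¹ = h := fun h' => h1 (by rw [← h', inv_inv])
    rw [if_neg h1, if_neg this, map_zero]

lemma invo_zero {G : Type} [Group G] : invo (0 : MonoidAlgebra ℂ G) = 0 := by
  apply MonoidAlgebra.ext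
  ext g
  rw [invo_coeff]; simp

lemma algEq_invo (x : MonoidAlgebra ℂ G) : algEq t (invo x) = invo (algEq t x) := by
  rw [algEq_apply, algEq_apply]
  induction x using MonoidAlgebra.induction_linear with
  | zero => rw [invo_zero, map_zero, invo_zero]
  | add a b ha hb => rw [invo_add, map_add, map_add, invo_add, ha, hb]
  | single g r =>
    rw [invo_single, algHom_single, algHom_single]
    apply MonoidAlgebra.ext
    ext h
    rw [invo_coeff, MonoidAlgebra.coeff_smul, MonoidAlgebra.coeff_smul, Finsupp.smul_apply,
      Finsupp.smul_apply, smul_eq_mul, smul_eq_mul, map_mul]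
    have := t.st g h⁻¹
    rw [inv_inv] at this
    rw [this]

end alg

end Pool.Agent.Y276.Rig
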