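import Mathlib

/-!
# Definitions for the statement on group algebras of ICC groups with property (T)
-/

set_option autoImplicit false

namespace Pool.Agent.Y276.Rig

open scoped ComplexConjugate

/-- every nontrivial element has infinitely many conjugates -/
def IsIcc (G : Type) [Group G] : Prop :=
  ∀ x : G, x ≠ 1 → {y : G | ∃ g : G, y = g * x * g⁻¹}.Infinite

/-- `π` is a unitary representation of `G` on `E` -/
def IsUnitaryRep {G E : Type} [Group G] [NormedAddCommGroup E] [InnerProductSpace ℂ E]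
    (π : G → E → E) : Prop :=
  (∀ g x y, π g (x + y) = π g x + π g y) ∧ (∀ g (c : ℂ) x, π g (c • x) = c • π g x) ∧
  (∀ g x, ‖π g x‖ = ‖x‖) ∧ (∀ x, π 1 x = x) ∧ ∀ g h x, π (g * h) x = π g (π h x)

/-- Kazhdan's property (T): there is a Kazhdan pair `(S, ε)` with `S` finite -/
def PropertyT (G : Type) [Group G] : Prop :=
  ∃ S : Finset G, ∃ ε : ℝ, 0 < ε ∧
    ∀ (E : Type) [NormedAddCommGroup E] [InnerProductSpace ℂ E] [CompleteSpace E]
      (π : G → E → E), IsUnitaryRep π →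
      (∃ v : E, ‖v‖ = 1 ∧ ∀ s ∈ S, ‖π s v - v‖ < ε) →
      ∃ w : E, w ≠ 0 ∧ ∀ g : G, π g w = w

/-- `f` is square summable, that is, `f ∈ ℓ²(G)` -/
def SqSum {G : Type} (f : G → ℂ) : Prop := Summable fun x => ‖f x‖ ^ 2

/-- the square of the norm of `f` in `ℓ²(G)` -/
noncomputable def nsq {G : Type} (f : G → ℂ) : ℝ := ∑' x, ‖f x‖ ^ 2

/-- `T` is a bounded linear operator on `ℓ²(G)` (its values on functions which are not square
summable are irrelevant) -/
def IsOp {G : Type} (T : (G → ℂ) → (G → ℂ)) : Prop :=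
  (∀ f, SqSum f → SqSum (T f)) ∧
  (∀ f f', SqSum f → SqSum f' → T (f + f') = T f + T f') ∧
  (∀ (c : ℂ) f, SqSum f → T (c • f) = c • T f) ∧
  ∃ C : ℝ, ∀ f, SqSum f → nsq (T f) ≤ C * nsq f

/-- `T` belongs to the group von Neumann algebra `L(G)`: it is a bounded operator on `ℓ²(G)` which
commutes with all right translations -/
def InVN {G : Type} [Group G] (T : (G → ℂ) → (G → ℂ)) : Prop :=
  IsOp T ∧ ∀ (g : G) f, SqSum f → T (fun x => f (x * g)) = fun x => T f (x * g)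

/-- `L(G)` and `L(H)` are isomorphic, in the strongest sense: for some unitary operator
`U : ℓ²(G) → ℓ²(H)` a bounded operator `T` belongs to `L(G)` if and only if `U T U⁻¹` belongs
to `L(H)` -/
def SameVN (G H : Type) [Group G] [Group H] : Prop :=
  ∃ U : (G → ℂ) → (H → ℂ),
    (∀ f, SqSum f → SqSum (U f) ∧ nsq (U f) = nsq f) ∧
    (∀ f f', SqSum f → SqSum f' → U (f + f') = U f + U f') ∧
    (∀ (c : ℂ) f, SqSum f → U (c • f) = c • U f) ∧
    (∀ k : H → ℂ, SqSum k → ∃ f, SqSum f ∧ U f = k) ∧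
    ∀ (T : (G → ℂ) → (G → ℂ)) (S : (H → ℂ) → (H → ℂ)), IsOp T → IsOp S →
      (∀ f, SqSum f → S (U f) = U (T f)) → (InVN T ↔ InVN S)

/-- the complex group algebras are isomorphic as algebras with involution and trace -/
def SameGroupAlgebra (G H : Type) [Group G] [Group H] : Prop :=
  ∃ Φ : MonoidAlgebra ℂ G ≃ₐ[ℂ] MonoidAlgebra ℂ H,
    (∀ x : MonoidAlgebra ℂ G, (Φ x).coeff 1 = x.coeff 1) ∧
    ∀ x y : MonoidAlgebra ℂ G, (∀ g : G, y.coeff g = conj (x.coeff g⁻¹)) →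
      ∀ h : H, (Φ y).coeff h = conj ((Φ x).coeff h⁻¹)

/-- virtual isomorphism -/
def VirtuallyIsomorphic (G H : Type) [Group G] [Group H] : Prop :=
  ∃ (F : Subgroup G) (K : Subgroup H) (_ : F.Normal) (_ : K.Normal),
    Finite F ∧ Finite K ∧
    ∃ (G₀ : Subgroup (G ⧸ F)) (H₀ : Subgroup (H ⧸ K)),
      G₀.index ≠ 0 ∧ H₀.index ≠ 0 ∧ Nonempty (G₀ ≃* H₀)

end Pool.Agent.Y276.Rig
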