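import Mathlib
import Pool.Agent.H197R3.VN

set_option autoImplicit false

namespace Pool.Agent.Y276.Rig

open Pool.Agent.H197R3
open scoped InnerProductSpace ComplexConjugate

section com
variable {G : Type} [Group G]

lemma comm_iff (T : H197R3.L2 G → H197R3.L2 G) :
    (∀ (g : G) (f f' : H197R3.L2 G), (∀ x : G, f' x = f (x * g)) → ∀ x : G, (T f') x = (T f) (x * g)) ↔
    ∀ (g : G) (f : H197R3.L2 G), T (rt g f) = rt g (T f) := by
  constructor
  · intro h g f
    ext x
    rw [h g f (rt g f) (fun x => rt_apply g f x) x, rt_apply]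
  · intro h g f f' hf x
    have : f' = rt g f := by
      ext x; rw [hf, rt_apply]
    rw [this, h, rt_apply]

/-- linear bounded operators commuting with the right translations -/
def Good (T : H197R3.L2 G → H197R3.L2 G) : Prop :=
  (∀ f f', T (f + f') = T f + T f') ∧ (∀ (c : ℂ) f, T (c • f) = c • T f) ∧
  (∃ C : ℝ, ∀ f, ‖T f‖ ≤ C * ‖f‖) ∧ ∀ (g : G) (f : H197R3.L2 G), T (rt g f) = rt g (T f)

end com

section main
variable {G H : Type} [Group G] [Group H] (t : Twist G H)

theorem good_iff (T : H197R3.L2 G → H197R3.L2 G) (S : H197R3.L2 H → H197R3.L2 H)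
    (hTS : ∀ f, S (tw t f) = tw t (T f)) : Good T ↔ Good S := by
  have hadd : (∀ f f', T (f + f') = T f + T f') ↔ (∀ f f', S (f + f') = S f + S f') := by
    constructor
    · intro h f f'
      obtain ⟨f, rfl⟩ := (tw t).surjective f
      obtain ⟨f', rfl⟩ := (tw t).surjective f'
      rw [← map_add, hTS, hTS, hTS, h, map_add]
    · intro h f f'
      apply (tw t).injective
      rw [map_add, ← hTS, ← hTS, ← hTS, map_add, h]
  have hsmul : (∀ (c : ℂ) f, T (c • f) = c • T f) ↔ (∀ (c : ℂ) f, S (c • f) = c • S f) := by
    constructor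
    · intro h c f
      obtain ⟨f, rfl⟩ := (tw t).surjective f
      rw [← map_smul, hTS, hTS, h, map_smul]
    · intro h c f
      apply (tw t).injective
      rw [map_smul, ← hTS, ← hTS, map_smul, h]
  have hbd : (∃ C : ℝ, ∀ f, ‖T f‖ ≤ C * ‖f‖) ↔ (∃ C : ℝ, ∀ f, ‖S f‖ ≤ C * ‖f‖) := by
    constructor
    · rintro ⟨C, h⟩
      refine ⟨C, fun f => ?_⟩
      obtain ⟨f, rfl⟩ := (tw t).surjective f
      rw [hTS, LinearIsometryEquiv.norm_map, LinearIsometryEquiv.norm_map]
      exact h f
    · rintro ⟨C, h⟩
      refine ⟨C, fun f => ?_⟩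
      have := h (tw t f)
      rwa [hTS, LinearIsometryEquiv.norm_map, LinearIsometryEquiv.norm_map] at this
  have hcom : (∀ f f', S (f + f') = S f + S f') → (∀ (c : ℂ) f, S (c • f) = c • S f) →
      ((∀ (g : G) (f : H197R3.L2 G), T (rt g f) = rt g (T f)) ↔
        ∀ (g : H) (f : H197R3.L2 H), S (rt g f) = rt g (S f)) := by
    intro ha hs
    have hS0 : S 0 = 0 := by
      have := hs 0 0
      rwa [zero_smul, zero_smul] at this
    -- all `rho y`
    have h1 : (∀ (g : H) (f : H197R3.L2 H), S (rt g f) = rt g (S f)) ↔
        ∀ y f, S (rho y f) = rho y (S f) := by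
      constructor
      · intro h y f
        induction y using MonoidAlgebra.induction_linear with
        | zero => simp [hS0]
        | add a b hfa hfb =>
          rw [map_add, add_apply, add_apply, ha, hfa, hfb]
        | single k s =>
          rw [rho_single]
          show S (s • rt k⁻¹ f) = s • rt k⁻¹ (S f)
          rw [hs, h]
      · intro h g f
        have := h (MonoidAlgebra.single g⁻¹ 1) f
        rw [rho_single, inv_inv, one_smul] at this
        exact this
    have h2 : (∀ y f, S (rho y f) = rho y (S f)) ↔
        ∀ g f, S (rho (t.θ g) f) = rho (t.θ g) (S f) := by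
      constructor
      · intro h g f; exact h _ f
      · intro h
        have key : ∀ y ∈ Submodule.span ℂ (Set.range t.θ), ∀ f, S (rho y f) = rho y (S f) := by
          intro y hy
          induction hy using Submodule.span_induction with
          | mem x hx => obtain ⟨g, rfl⟩ := hx; exact h g
          | zero => intro f; simp [hS0]
          | add a b _ _ hfa hfb =>
            intro f
            rw [map_add, add_apply, add_apply, ha, hfa, hfb]
          | smul c a _ hfa =>
            intro f
            rw [map_smul, smul_apply, smul_apply, hs, hfa]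
        intro y
        apply key
        induction y using MonoidAlgebra.induction_linear with
        | zero => exact Submodule.zero_mem _
        | add a b ha hb => exact Submodule.add_mem _ ha hb
        | single k s =>
          have := Submodule.smul_mem _ s (t.sp k)
          rwa [MonoidAlgebra.smul_single, smul_eq_mul, mul_one] at this
    rw [h1, h2]
    constructor
    · intro h g f
      obtain ⟨f, rfl⟩ := (tw t).surjective f
      rw [← tw_intertwine, hTS, hTS, h, tw_intertwine]
    · intro h g f
      apply (tw t).injective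
      have h3 := h g⁻¹ (tw t f)
      rw [← tw_intertwine, inv_inv, hTS, hTS, ← tw_intertwine, inv_inv] at h3
      exact h3
  constructor
  · rintro ⟨a, b, c, d⟩
    exact ⟨hadd.1 a, hsmul.1 b, hbd.1 c, (hcom (hadd.1 a) (hsmul.1 b)).1 d⟩
  · rintro ⟨a, b, c, d⟩
    exact ⟨hadd.2 a, hsmul.2 b, hbd.2 c, (hcom a b).2 d⟩

end main

end Pool.Agent.Y276.Rig
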