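import Mathlib
import Pool.Agent.Y276.Rig.Vn
import Pool.Agent.Y276.Rig.Stm

set_option autoImplicit false

namespace Pool.Agent.Y276.Rig

open Pool.Agent.H197R3

section
variable {G : Type}

lemma memlp_iff (f : G → ℂ) : Memℓp (E := fun _ : G => ℂ) f 2 ↔ SqSum f := by
  rw [memℓp_gen_iff (by norm_num)]
  unfold SqSum
  simp

lemma sqSum_coe (f : H197R3.L2 G) : SqSum (f : G → ℂ) := (memlp_iff _).1 f.2

lemma nsq_coe (f : H197R3.L2 G) : nsq (f : G → ℂ) = ‖f‖ ^ 2 := by
  have := lp.norm_rpow_eq_tsum (p := 2) (by norm_num) f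
  unfold nsq
  simp only [ENNReal.toReal_ofNat, Real.rpow_two] at this
  rw [this]

open Classical in
/-- the element of `ℓ²` given by a function (zero if it is not square summable) -/
noncomputable def toL (f : G → ℂ) : H197R3.L2 G :=
  if h : SqSum f then (⟨f, (memlp_iff f).2 h⟩ : lp (fun _ : G => ℂ) 2) else 0

lemma toL_coe' {f : G → ℂ} (h : SqSum f) : ((toL f : H197R3.L2 G) : G → ℂ) = f := by
  unfold toL
  rw [dif_pos h]

lemma toL_coe (f : H197R3.L2 G) : toL (f : G → ℂ) = f := by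
  apply Subtype.ext
  exact toL_coe' (sqSum_coe f)

/-- the operator on `ℓ²` -/
noncomputable def op (T : (G → ℂ) → (G → ℂ)) : H197R3.L2 G → H197R3.L2 G := fun f => toL (T f)

lemma op_coe {T : (G → ℂ) → (G → ℂ)} (hT : IsOp T) (f : H197R3.L2 G) :
    ((op T f : H197R3.L2 G) : G → ℂ) = T f := toL_coe' (hT.1 _ (sqSum_coe f))

lemma good_iff_inVN [Group G] {T : (G → ℂ) → (G → ℂ)} (hT : IsOp T) : InVN T ↔ Good (op T) := by
  have hlin : (∀ f f', op T (f + f') = op T f + op T f') ∧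
      (∀ (c : ℂ) f, op T (c • f) = c • op T f) ∧ ∃ C : ℝ, ∀ f, ‖op T f‖ ≤ C * ‖f‖ := by
    obtain ⟨h1, h2, h3, C, h4⟩ := hT
    have hT' : IsOp T := ⟨h1, h2, h3, C, h4⟩
    refine ⟨fun f f' => ?_, fun c f => ?_, √|C|, fun f => ?_⟩
    · apply Subtype.ext
      show ((op T (f + f') : H197R3.L2 G) : G → ℂ) =
        ((op T f : H197R3.L2 G) : G → ℂ) + ((op T f' : H197R3.L2 G) : G → ℂ)
      rw [op_coe hT', op_coe hT', op_coe hT', ← h2 _ _ (sqSum_coe f) (sqSum_coe f')]
      rfl
    · apply Subtype.ext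
      show ((op T (c • f) : H197R3.L2 G) : G → ℂ) = c • ((op T f : H197R3.L2 G) : G → ℂ)
      rw [op_coe hT', op_coe hT', ← h3 _ _ (sqSum_coe f)]
      rfl
    · have h5 := h4 _ (sqSum_coe f)
      rw [← op_coe hT', nsq_coe, nsq_coe] at h5
      have h6 : ‖op T f‖ ^ 2 ≤ (√|C| * ‖f‖) ^ 2 := by
        rw [mul_pow, Real.sq_sqrt (abs_nonneg C)]
        exact h5.trans (mul_le_mul_of_nonneg_right (le_abs_self C) (sq_nonneg _))
      exact le_of_sq_le_sq h6 (by positivity)
  constructor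
  · rintro ⟨_, h⟩
    refine ⟨hlin.1, hlin.2.1, hlin.2.2, fun g f => ?_⟩
    apply Subtype.ext
    show ((op T (rt g f) : H197R3.L2 G) : G → ℂ) = ((rt g (op T f) : H197R3.L2 G) : G → ℂ)
    rw [op_coe hT]
    have e1 : ((rt g f : H197R3.L2 G) : G → ℂ) = fun x => (f : G → ℂ) (x * g) :=
      funext fun x => rt_apply g f x
    have e2 : ((rt g (op T f) : H197R3.L2 G) : G → ℂ) = fun x => ((op T f : H197R3.L2 G) : G → ℂ) (x * g) :=
      funext fun x => rt_apply g _ x
    rw [e1, h g _ (sqSum_coe f), e2, op_coe hT]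
  · rintro ⟨_, _, _, h⟩
    refine ⟨hT, fun g f hf => ?_⟩
    have e0 : (toL f : G → ℂ) = f := toL_coe' hf
    have e1 : ((rt g (toL f) : H197R3.L2 G) : G → ℂ) = fun x => f (x * g) := by
      funext x
      rw [rt_apply, e0]
    have h2 := congrArg (fun k : H197R3.L2 G => (k : G → ℂ)) (h g (toL f))
    simp only [op_coe hT, e1] at h2
    rw [h2]
    funext x
    rw [rt_apply, op_coe hT, e0]

end

section
variable {G H : Type} [Group G] [Group H]

/-- the unitary operator as a map on functions -/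
noncomputable def uop (t : Twist G H) (f : G → ℂ) : H → ℂ := tw t (toL f)

theorem elementary (t : Twist G H) :
    (∀ f, SqSum f → SqSum (uop t f) ∧ nsq (uop t f) = nsq f) ∧
    (∀ f f', SqSum f → SqSum f' → uop t (f + f') = uop t f + uop t f') ∧
    (∀ (c : ℂ) f, SqSum f → uop t (c • f) = c • uop t f) ∧
    (∀ k : H → ℂ, SqSum k → ∃ f, SqSum f ∧ uop t f = k) ∧
    ∀ (T : (G → ℂ) → (G → ℂ)) (S : (H → ℂ) → (H → ℂ)), IsOp T → IsOp S →
      (∀ f, SqSum f → S (uop t f) = uop t (T f)) → (InVN T ↔ InVN S) := by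
  refine ⟨fun f hf => ?_, fun f f' hf hf' => ?_, fun c f hf => ?_, fun k hk => ?_, ?_⟩
  · refine ⟨sqSum_coe _, ?_⟩
    unfold uop
    rw [nsq_coe, LinearIsometryEquiv.norm_map, ← nsq_coe, toL_coe' hf]
  · have : (toL (f + f') : H197R3.L2 G) = toL f + toL f' := by
      have h : SqSum (f + f') := by
        have := sqSum_coe (toL f + toL f' : H197R3.L2 G)
        have e : ((toL f + toL f' : H197R3.L2 G) : G → ℂ) = f + f' := by
          show ((toL f : H197R3.L2 G) : G → ℂ) + ((toL f' : H197R3.L2 G) : G → ℂ) = _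
          rw [toL_coe' hf, toL_coe' hf']
        rwa [e] at this
      apply Subtype.ext
      show ((toL (f + f') : H197R3.L2 G) : G → ℂ) =
        ((toL f : H197R3.L2 G) : G → ℂ) + ((toL f' : H197R3.L2 G) : G → ℂ)
      rw [toL_coe' h, toL_coe' hf, toL_coe' hf']
    unfold uop
    rw [this, map_add]
    rfl
  · have : (toL (c • f) : H197R3.L2 G) = c • toL f := by
      have h : SqSum (c • f) := by
        have := sqSum_coe (c • toL f : H197R3.L2 G)
        have e : ((c • toL f : H197R3.L2 G) : G → ℂ) = c • f := by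
          show c • ((toL f : H197R3.L2 G) : G → ℂ) = _
          rw [toL_coe' hf]
        rwa [e] at this
      apply Subtype.ext
      show ((toL (c • f) : H197R3.L2 G) : G → ℂ) = c • ((toL f : H197R3.L2 G) : G → ℂ)
      rw [toL_coe' h, toL_coe' hf]
    unfold uop
    rw [this, map_smul]
    rfl
  · obtain ⟨f, hf⟩ := (tw t).surjective (toL k)
    refine ⟨f, sqSum_coe f, ?_⟩
    unfold uop
    rw [toL_coe, hf, toL_coe' hk]
  · intro T S hT hS hTS
    rw [good_iff_inVN hT, good_iff_inVN hS]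
    apply good_iff t
    intro f
    apply Subtype.ext
    show ((op S (tw t f) : H197R3.L2 H) : H → ℂ) = ((tw t (op T f) : H197R3.L2 H) : H → ℂ)
    rw [op_coe hS]
    have h1 := hTS f (sqSum_coe f)
    have e1 : uop t (f : G → ℂ) = (tw t f : H197R3.L2 H) := by
      unfold uop
      rw [toL_coe]
    rw [e1] at h1
    rw [h1]
    rfl

theorem sameVN (t : Twist G H) : SameVN G H := ⟨uop t, elementary t⟩

/-- the operator-theoretic form of property (T) gives the elementary one -/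
lemma propertyT_of {G : Type} [Group G]
    (h : ∃ S : Finset G, ∃ ε : ℝ, 0 < ε ∧
      ∀ (E : Type) [NormedAddCommGroup E] [InnerProductSpace ℂ E] [CompleteSpace E]
        (π : G →* (E →L[ℂ] E)),
        (∀ g : G, π g ∈ unitary (E →L[ℂ] E)) →
        (∃ v : E, ‖v‖ = 1 ∧ ∀ s ∈ S, ‖(π s) v - v‖ < ε) →
        ∃ w : E, w ≠ 0 ∧ ∀ g : G, (π g) w = w) : PropertyT G := by
  obtain ⟨S, ε, hε, H⟩ := h
  refine ⟨S, ε, hε, ?_⟩
  intro E _ _ _ π ⟨h1, h2, h3, h4, h5⟩ hv
  let L : G → (E →ₗᵢ[ℂ] E) := fun g =>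
    { toFun := π g
      map_add' := h1 g
      map_smul' := h2 g
      norm_map' := h3 g }
  let ρ : G →* (E →L[ℂ] E) :=
    { toFun := fun g => (L g).toContinuousLinearMap
      map_one' := by ext x; exact h4 x
      map_mul' := fun g h => by ext x; exact h5 g h x }
  refine H E ρ (fun g => ?_) hv
  have hinner : ∀ g x y, inner ℂ (π g x) (π g y) = inner ℂ x y := fun g x y =>
    (L g).inner_map_map x y
  have hadj : ∀ g, star (ρ g) = ρ g⁻¹ := by
    intro g
    rw [ContinuousLinearMap.star_eq_adjoint]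
    symm
    rw [ContinuousLinearMap.eq_adjoint_iff]
    intro x y
    show inner ℂ (π g⁻¹ x) y = inner ℂ x (π g y)
    rw [← hinner g, ← h5, mul_inv_cancel, h4]
  rw [Unitary.mem_iff, hadj, ← map_mul, ← map_mul, inv_mul_cancel, mul_inv_cancel, map_one]
  exact ⟨rfl, rfl⟩

end

end Pool.Agent.Y276.Rig
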