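import Mathlib
import Pool.Agent.H197R3.Fin1

set_option autoImplicit false
set_option linter.unusedSectionVars false
set_option linter.unusedSimpArgs false

namespace Pool.Agent.Y276.Rig

open Pool.Agent.H197R3
open Polynomial SemidirectProduct

section quad
variable {A : Type} [AddCommGroup A]

lemma quad_zero' (Q : Quad A) : Q.1 0 = 0 := by
  have h := quad_rel Q 0 0 0
  simp only [add_zero] at h
  have h2 : (2 : ZMod 2) = 0 := rfl
  linear_combination h - 3 * Q.1 0 * h2

/-- every quadratic function is the diagonal of a biadditive function -/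
lemma exists_biadd (h2 : ∀ a : A, 2 • a = 0) (Q : Quad A) :
    ∃ β : A → A → ZMod 2, (∀ a a' b, β (a + a') b = β a b + β a' b) ∧
      (∀ a b b', β a (b + b') = β a b + β a b') ∧ ∀ a, Q.1 a = β a a := by
  let _ : Module (ZMod 2) A := AddCommGroup.zmodModule h2
  have two : (2 : ZMod 2) = 0 := rfl
  have hpol : ∀ x y, QuadraticMap.polar Q.1 x y = Q.1 (x + y) + Q.1 x + Q.1 y := by
    intro x y
    rw [QuadraticMap.polar]
    linear_combination (-Q.1 x - Q.1 y) * two
  have hleft : ∀ x x' y : A, QuadraticMap.polar Q.1 (x + x') y =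
      QuadraticMap.polar Q.1 x y + QuadraticMap.polar Q.1 x' y := by
    intro x x' y
    rw [hpol, hpol, hpol]
    have h := quad_rel Q x x' y
    linear_combination h - (Q.1 (x + y) + Q.1 (x' + y) + Q.1 x + Q.1 x' + Q.1 y) * two
  let q : QuadraticMap (ZMod 2) A (ZMod 2) := QuadraticMap.ofPolar Q.1 (by
      intro a x
      rcases z2 a with rfl | rfl
      · rw [zero_smul, quad_zero']; simp
      · rw [one_smul, mul_one, one_smul])
    hleft (by
      intro a x y
      rcases z2 a with rfl | rfl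
      · rw [zero_smul, zero_smul, hpol, zero_add, quad_zero']
        linear_combination Q.1 y * two
      · rw [one_smul, one_smul])
  obtain ⟨B, hB⟩ := LinearMap.BilinMap.toQuadraticMap_surjective q
  refine ⟨fun a b => B a b, ?_, ?_, ?_⟩
  · intro a a' b; simp
  · intro a b b'; simp
  · intro a
    have h3 := congrArg (fun q : QuadraticMap (ZMod 2) A (ZMod 2) => q a) hB
    exact h3.symm

/-- the quadratic function `x ↦ β (P x) (R x)` -/
def quadOf (β : A → A → ZMod 2) (h1 : ∀ a a' b, β (a + a') b = β a b + β a' b)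
    (h2 : ∀ a b b', β a (b + b') = β a b + β a b') (P R : A →+ A) : Quad A :=
  ⟨fun x => β (P x) (R x), by
    intro a b c
    simp only [map_add, h1, h2]
    have h3 : (2 : ZMod 2) = 0 := rfl
    linear_combination (2 * β (P a) (R a) + 2 * β (P b) (R b) + 2 * β (P c) (R c) +
      β (P a) (R b) + β (P a) (R c) + β (P b) (R a) + β (P b) (R c) + β (P c) (R a) +
      β (P c) (R b)) * h3⟩

lemma quadOf_apply (β : A → A → ZMod 2) (h1 : ∀ a a' b, β (a + a') b = β a b + β a' b)
    (h2 : ∀ a b b', β a (b + b') = β a b + β a b') (P R : A →+ A) (x : A) :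
    (quadOf β h1 h2 P R).1 x = β (P x) (R x) := rfl

end quad

section fld
variable {k : Type} [Field k]

/-- vectors of polynomials of degree `< n` -/
def Low (n : ℕ) (b : VA k) : Prop := ∀ i, b i ∈ Polynomial.degreeLT k n

/-- inclusion of the `j`-th coordinate line -/
noncomputable def sgl (j : Fin 3) : k[X] →+ VA k := AddMonoidHom.single (fun _ : Fin 3 => k[X]) j

lemma sgl_apply (j : Fin 3) (c : k[X]) : (sgl j c : VA k) = Pi.single j c := rfl

/-- projection onto the `j`-th coordinate line -/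
noncomputable def pr (j : Fin 3) : VA k →+ VA k :=
  (sgl j).comp (Pi.evalAddMonoidHom (fun _ : Fin 3 => k[X]) j)

lemma pr_apply (j : Fin 3) (x : VA k) : pr j x = Pi.single j (x j) := rfl

lemma ee_smul {i j : Fin 3} (h : i ≠ j) (f : k[X]) (b : VA k) :
    (ee h f) • b = b + Pi.single i (f * b j) := by
  show (el h f : SL3 k[X]) • b = _
  rw [Matrix.SpecialLinearGroup.smul_def, el_coe, Matrix.smul_eq_mulVec, Matrix.add_mulVec,
    Matrix.one_mulVec]
  congr 1
  ext1 m
  rw [Matrix.mulVec, dotProduct]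
  simp only [Matrix.single_apply, Pi.single_apply]
  by_cases hm : i = m
  · subst hm; simp
  · have : ¬ m = i := fun h => hm h.symm
    simp [hm, this]

lemma exists_proj (N : ℕ) (f : k[X]) (hf : N ≤ f.natDegree) (hf0 : f ≠ 0) (i : Fin 3) :
    ∃ (P : VA k →+ VA k) (R : VA k →+ k[X]), ∀ b : VA k, Low N b → ∀ c : k[X],
      P (b + Pi.single i (f * c)) = b ∧ R (b + Pi.single i (f * c)) = c := by
  let incL : TData.FF k N →ₗ[k] VA k :=
    { toFun := TData.inc N
      map_add' := fun a b => rfl
      map_smul' := fun r a => rfl }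
  let sgL : k[X] →ₗ[k] VA k :=
    (LinearMap.single k (fun _ : Fin 3 => k[X]) i).comp (LinearMap.mulLeft k f)
  let L : (TData.FF k N × k[X]) →ₗ[k] VA k := LinearMap.coprod incL sgL
  have hL : ∀ b c, L (b, c) = TData.inc N b + Pi.single i (f * c) := by
    intro b c
    show LinearMap.coprod incL sgL (b, c) = _
    rw [LinearMap.coprod_apply]
    rfl
  have hker : LinearMap.ker L = ⊥ := by
    rw [LinearMap.ker_eq_bot']
    rintro ⟨b, c⟩ hbc
    rw [hL] at hbc
    have hc : c = 0 := by
      by_contra hc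
      have h1 := congrFun hbc i
      simp only [Pi.add_apply, Pi.single_eq_same, Pi.zero_apply] at h1
      have h2 : (b i : k[X]) = - (f * c) := eq_neg_of_add_eq_zero_left h1
      have h3 := Polynomial.mem_degreeLT.1 (b i).2
      rw [h2, Polynomial.degree_neg, Polynomial.degree_mul, Polynomial.degree_eq_natDegree hf0,
        Polynomial.degree_eq_natDegree hc] at h3
      have h4 : f.natDegree + c.natDegree < N := by exact_mod_cast h3
      omega
    subst hc
    rw [mul_zero, Pi.single_zero, add_zero] at hbc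
    have hb : b = 0 := by
      funext l
      exact Subtype.ext (congrFun hbc l)
    rw [hb]; rfl
  obtain ⟨S, hS⟩ := L.exists_leftInverse_of_injective hker
  refine ⟨(incL.comp ((LinearMap.fst k _ _).comp S)).toAddMonoidHom,
    ((LinearMap.snd k _ _).comp S).toAddMonoidHom, ?_⟩
  intro b hb c
  obtain ⟨b', rfl⟩ := TData.mem_inc hb
  have h1 : S (TData.inc N b' + Pi.single i (f * c)) = (b', c) := by
    rw [← hL]
    exact congrArg (fun T => T (b', c)) hS
  constructor
  · show TData.inc N (S (TData.inc N b' + Pi.single i (f * c))).1 = _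
    rw [h1]
  · show (S (TData.inc N b' + Pi.single i (f * c))).2 = _
    rw [h1]

/-- finite support of the elements of `M1`, `M2` -/
def Supp (m : XX (VA k) → Circle) : Prop :=
  ∃ n, ∀ N, n ≤ N → ∀ x y : XX (VA k),
    (∀ b : VA k, Low N b → x.1 b = y.1 b ∧ x.2.1 b = y.2.1 b) → m x = m y

lemma supp_one : Supp (1 : XX (VA k) → Circle) := ⟨0, fun _ _ _ _ _ => rfl⟩

lemma supp_mul {p q : XX (VA k) → Circle} (hp : Supp p) (hq : Supp q) : Supp (p * q) := by
  obtain ⟨n, hn⟩ := hp
  obtain ⟨n', hn'⟩ := hq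
  refine ⟨max n n', fun N hN x y h => ?_⟩
  rw [Pi.mul_apply, Pi.mul_apply, hn N ((le_max_left _ _).trans hN) x y h,
    hn' N ((le_max_right _ _).trans hN) x y h]

lemma supp_inv {p : XX (VA k) → Circle} (hp : Supp p) : Supp p⁻¹ := by
  obtain ⟨n, hn⟩ := hp
  refine ⟨n, fun N hN x y h => ?_⟩
  rw [Pi.inv_apply, Pi.inv_apply, hn N hN x y h]

lemma supp_gen (a : VA k) (F : ZMod 2 → ZMod 2 → Circle) :
    Supp (fun x : XX (VA k) => F (x.1 a) (x.2.1 a)) := by
  obtain ⟨n, hn⟩ := TData.exists_deg a
  refine ⟨n, fun N hN x y h => ?_⟩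
  obtain ⟨h1, h2⟩ := h a (fun i => hn N hN i)
  show F _ _ = F _ _
  rw [h1, h2]

lemma supp_M1 {m : XX (VA k) → Circle} (hm : m ∈ M1 (VA k)) : Supp m := by
  induction hm using Subgroup.closure_induction with
  | mem z hz => obtain ⟨a, rfl⟩ := hz; exact supp_gen a (fun s t => tw2 s * sg t)
  | one => exact supp_one
  | mul p q _ _ hp hq => exact supp_mul hp hq
  | inv p _ hp => exact supp_inv hp

lemma supp_M2 {m : XX (VA k) → Circle} (hm : m ∈ M2 (VA k)) : Supp m := by
  induction hm using Subgroup.closure_induction with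
  | mem z hz =>
    rcases hz with ⟨a, rfl⟩ | ⟨a, rfl⟩
    · exact supp_gen a (fun s _ => sg s)
    · exact supp_gen a (fun _ t => sg t)
  | one => exact supp_one
  | mul p q _ _ hp hq => exact supp_mul hp hq
  | inv p _ hp => exact supp_inv hp

/-- the common properties of the elements of `M1`, `M2` -/
structure Nice (m : XX (VA k) → Circle) : Prop where
  supp : Supp m
  zero : m (0, 0) = 1
  add : ∀ Q Q', m (0, Q + Q') = m (0, Q) * m (0, Q')
  ind : (∀ Q, m (0, Q) = 1) → ∀ v Q, m (v, Q) = m (v, 0)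
  add' : (∀ Q, m (0, Q) = 1) → ∀ v v', m (v + v', 0) = m (v, 0) * m (v', 0)

lemma nice_M1 {m : XX (VA k) → Circle} (hm : m ∈ M1 (VA k)) : Nice m := by
  have hadd : ∀ Q Q', m (0, Q + Q') = m (0, Q) * m (0, Q') := by
    intro Q Q'
    have := M1_char hm 0 0 Q Q'
    rwa [vv_zero_left, add_zero, add_zero] at this
  have hind : (∀ Q, m (0, Q) = 1) → ∀ v Q, m (v, Q) = m (v, 0) := by
    intro h v Q
    have := M1_char hm 0 v Q 0
    rw [vv_zero_left, add_zero, add_zero, zero_add, h, one_mul] at this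
    exact this
  refine ⟨supp_M1 hm, ?_, hadd, hind, ?_⟩
  · have := hadd 0 0
    rw [add_zero] at this
    exact mul_eq_left.1 this.symm
  · intro h v v'
    have := M1_char hm v v' 0 0
    rwa [add_zero, zero_add, hind h (v + v')] at this

lemma nice_M2 {m : XX (VA k) → Circle} (hm : m ∈ M2 (VA k)) : Nice m := by
  have hch : ∀ v v' Q Q', m (v + v', Q + Q') = m (v, Q) * m (v', Q') := fun v v' Q Q' =>
    M2_char hm (v, Q) (v', Q')
  refine ⟨supp_M2 hm, ?_, ?_, ?_, ?_⟩
  · have := hch 0 0 0 0
    rw [add_zero, add_zero] at this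
    exact mul_eq_left.1 this.symm
  · intro Q Q'
    have := hch 0 0 Q Q'
    rwa [add_zero] at this
  · intro h v Q
    have := hch v 0 0 Q
    rw [add_zero, zero_add, h, mul_one] at this
    exact this
  · intro _ v v'
    have := hch v v' 0 0
    rwa [add_zero] at this

lemma exists_stab (m : XX (VA k) → Circle)
    (hfin : (Set.range fun g : Lam k => fun x => m (pb g x)).Finite)
    {i j : Fin 3} (h : i ≠ j) (N : ℕ) :
    ∃ f : k[X], N ≤ f.natDegree ∧ f ≠ 0 ∧ ∀ x, m (pb (ee h f) x) = m x := by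
  have : Finite (Set.range fun g : Lam k => fun x => m (pb g x)) := hfin
  obtain ⟨y, hy⟩ := Finite.exists_infinite_fiber (fun n : ℕ =>
    (⟨fun x => m (pb (ee h (X ^ n : k[X])) x), ⟨_, rfl⟩⟩ :
      Set.range fun g : Lam k => fun x => m (pb g x)))
  have hinf := Set.infinite_coe_iff.1 hy
  obtain ⟨a, ha, haN⟩ := hinf.exists_gt N
  obtain ⟨b, hb, hab⟩ := hinf.exists_gt a
  have hbN : N < b := by omega
  have heq : ∀ x, m (pb (ee h (X ^ a : k[X])) x) = m (pb (ee h (X ^ b : k[X])) x) := by
    intro x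
    have h1 := (Set.mem_singleton_iff.1 ha).trans (Set.mem_singleton_iff.1 hb).symm
    exact congrFun (congrArg Subtype.val h1) x
  have hdeg : (X ^ b - X ^ a : k[X]).natDegree = b := by
    rw [Polynomial.natDegree_sub_eq_left_of_natDegree_lt]
    · rw [Polynomial.natDegree_X_pow]
    · rw [Polynomial.natDegree_X_pow, Polynomial.natDegree_X_pow]; exact hab
  refine ⟨X ^ b - X ^ a, by rw [hdeg]; exact hbN.le, ?_, ?_⟩
  · intro h0
    rw [h0, Polynomial.natDegree_zero] at hdeg
    omega
  · intro x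
    have e : ee h (X ^ b - X ^ a : k[X]) = (ee h (X ^ a))⁻¹ * ee h (X ^ b) := by
      rw [← ee_neg]
      apply Subtype.ext
      show el h (X ^ b - X ^ a) = el h (-X ^ a) * el h (X ^ b)
      rw [← el_add]; congr 1; ring
    rw [e, pb_mul, ← heq, ← pb_mul, inv_mul_cancel, pb_one]

lemma two_VA [Fintype k] [CharP k 2] (a : VA k) : 2 • a = 0 := by
  rw [two_nsmul]; exact VA_two a

/-- an element of `M1` or `M2` with a finite orbit is trivial -/
theorem eq_one_of_finite [Fintype k] [CharP k 2] (m : XX (VA k) → Circle) (hm : Nice m)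
    (hfin : (Set.range fun g : Lam k => fun x => m (pb g x)).Finite) : m = 1 := by
  have hQ : ∀ Q, m (0, Q) = 1 := by
    intro Q
    obtain ⟨β, hl, hr, hβ⟩ := exists_biadd two_VA Q
    have hj : ∀ j : Fin 3, m (0, quadOf β hl hr (AddMonoidHom.id _) (pr j)) = 1 := by
      intro j
      obtain ⟨i, hij⟩ : ∃ i : Fin 3, i ≠ j := by
        revert j; decide
      obtain ⟨N, hN⟩ := hm.supp
      obtain ⟨f, hf, hf0, hst⟩ := exists_stab m hfin hij N
      obtain ⟨P, R, hPR⟩ := exists_proj N f hf hf0 i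
      have hPR0 : ∀ b : VA k, Low N b → P b = b ∧ R b = 0 := by
        intro b hb
        have := hPR b hb 0
        rwa [mul_zero, Pi.single_zero, add_zero] at this
      have e1 : m (0, quadOf β hl hr P ((sgl j).comp R)) = m (0, 0) := by
        apply hN N le_rfl
        intro b hb
        refine ⟨rfl, ?_⟩
        show β (P b) (sgl j (R b)) = 0
        rw [(hPR0 b hb).2, map_zero]
        have := hr (P b) 0 0
        rw [add_zero] at this
        exact left_eq_add.1 this
      have e2 : m (pb (ee hij f) (0, quadOf β hl hr P ((sgl j).comp R))) =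
          m (0, quadOf β hl hr (AddMonoidHom.id _) (pr j)) := by
        apply hN N le_rfl
        intro b hb
        refine ⟨rfl, ?_⟩
        rw [pb_snd, ee_smul]
        show β (P (b + Pi.single i (f * b j))) (sgl j (R (b + Pi.single i (f * b j)))) =
          β b (Pi.single j (b j))
        rw [(hPR b hb (b j)).1, (hPR b hb (b j)).2, sgl_apply]
      rw [← e2, hst, e1, hm.zero]
    have hsum : Q = quadOf β hl hr (AddMonoidHom.id _) (pr 0) +
        quadOf β hl hr (AddMonoidHom.id _) (pr 1) + quadOf β hl hr (AddMonoidHom.id _) (pr 2) := by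
      apply Subtype.ext
      funext a
      show Q.1 a = β a (Pi.single 0 (a 0)) + β a (Pi.single 1 (a 1)) + β a (Pi.single 2 (a 2))
      rw [hβ, ← hr, ← hr, ← vec_decomp]
    rw [hsum, hm.add, hm.add, hj, hj, hj, one_mul, one_mul]
  have hv : ∀ v, m (v, 0) = 1 := by
    intro v
    have hj : ∀ j : Fin 3, m (v.comp (pr j), 0) = 1 := by
      intro j
      obtain ⟨i, hij⟩ : ∃ i : Fin 3, i ≠ j := by
        revert j; decide
      obtain ⟨N, hN⟩ := hm.supp
      obtain ⟨f, hf, hf0, hst⟩ := exists_stab m hfin hij N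
      obtain ⟨P, R, hPR⟩ := exists_proj N f hf hf0 i
      have hPR0 : ∀ b : VA k, Low N b → P b = b ∧ R b = 0 := by
        intro b hb
        have := hPR b hb 0
        rwa [mul_zero, Pi.single_zero, add_zero] at this
      have e1 : m (v.comp ((sgl j).comp R), 0) = m (0, 0) := by
        apply hN N le_rfl
        intro b hb
        refine ⟨?_, rfl⟩
        show v (sgl j (R b)) = 0
        rw [(hPR0 b hb).2, map_zero, map_zero]
      have e2 : m (pb (ee hij f) (v.comp ((sgl j).comp R), 0)) = m (v.comp (pr j), 0) := by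
        apply hN N le_rfl
        intro b hb
        refine ⟨?_, rfl⟩
        rw [pb_fst, ee_smul]
        show v (sgl j (R (b + Pi.single i (f * b j)))) = v (Pi.single j (b j))
        rw [(hPR b hb (b j)).2, sgl_apply]
      rw [← e2, hst, e1, hm.zero]
    have hsum : v = v.comp (pr 0) + v.comp (pr 1) + v.comp (pr 2) := by
      refine DFunLike.ext _ _ fun a => ?_
      show v a = v (Pi.single 0 (a 0)) + v (Pi.single 1 (a 1)) + v (Pi.single 2 (a 2))
      rw [← map_add, ← map_add, ← vec_decomp]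
    rw [hsum, hm.add' hQ, hm.add' hQ, hj, hj, hj, one_mul, one_mul]
  funext ⟨v, Q⟩
  rw [hm.ind hQ, hv]; rfl

/-- the elementary group is ICC -/
lemma icc_Lam (hk : Nat.card k = 8) (x : Lam k) (hx : {y | ∃ g, y = g * x * g⁻¹}.Finite) :
    x = 1 := by
  have hfin : Finite {y | ∃ g, y = g * x * g⁻¹} := hx
  have hind : (Subgroup.centralizer {x} : Subgroup (Lam k)).index ≠ 0 := by
    have hf : Finite (Lam k ⧸ (Subgroup.centralizer {x} : Subgroup (Lam k))) := by
      refine Finite.of_injective (fun q : Lam k ⧸ (Subgroup.centralizer {x} : Subgroup (Lam k)) =>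
        (⟨q.out * x * q.out⁻¹, ⟨_, rfl⟩⟩ : {y | ∃ g, y = g * x * g⁻¹})) ?_
      intro q r hqr
      have h1 : q.out * x * q.out⁻¹ = r.out * x * r.out⁻¹ := congrArg Subtype.val hqr
      rw [← QuotientGroup.out_eq' q, ← QuotientGroup.out_eq' r, QuotientGroup.eq,
        Subgroup.mem_centralizer_singleton_iff]
      calc (q.out⁻¹ * r.out) * x = q.out⁻¹ * (r.out * x * r.out⁻¹) * r.out := by group
        _ = q.out⁻¹ * (q.out * x * q.out⁻¹) * r.out := by rw [h1]
        _ = x * (q.out⁻¹ * r.out) := by group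
    exact Subgroup.index_ne_zero_of_finite
  refine star hk (Subgroup.zpowers x) (Subgroup.centralizer {x}) {1} hind ?_
    (Set.finite_singleton 1) ?_ x (Subgroup.mem_zpowers x)
  · rintro y hy n ⟨z, rfl⟩
    rw [Subgroup.mem_centralizer_singleton_iff] at hy
    have h1 : Commute y x := hy
    have h2 : y * x ^ z = x ^ z * y := (h1.zpow_right z).eq
    show y * x ^ z * y⁻¹ ∈ _
    rw [h2, mul_inv_cancel_right]
    exact ⟨z, rfl⟩
  · rintro n ⟨z, rfl⟩ n' ⟨z', rfl⟩
    show x ^ z * x ^ z' * (x ^ z)⁻¹ * (x ^ z')⁻¹ ∈ _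
    rw [Set.mem_singleton_iff]
    have : x ^ z * x ^ z' = x ^ z' * x ^ z := ((Commute.refl x).zpow_zpow z z').eq
    rw [this]; group

/-- the semidirect products are ICC -/
theorem icc_GG [Fintype k] [CharP k 2] (hk : Nat.card k = 8) (M : Subgroup (XX (VA k) → Circle))
    (hM : Inv' (Lam k) M) (hn : ∀ m ∈ M, Nice m) (x : GG (A := VA k) (Lam k) M hM)
    (hx : x ≠ 1) : {y | ∃ g, y = g * x * g⁻¹}.Infinite := by
  intro hfin
  apply hx
  have h1 : x.right = 1 := by
    apply icc_Lam hk
    refine (hfin.image (rightHom : GG (A := VA k) (Lam k) M hM →* Lam k)).subset ?_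
    rintro _ ⟨g, rfl⟩
    refine ⟨inr g * x * (inr g)⁻¹, ⟨inr g, rfl⟩, ?_⟩
    rw [map_mul, map_mul, map_inv, rightHom_inr]; rfl
  have h2 : x = inl x.left := by
    conv_lhs => rw [← inl_left_mul_inr_right x]
    rw [h1, map_one, mul_one]
  have h3 : x.left.1 = 1 := by
    apply eq_one_of_finite _ (hn _ x.left.2)
    refine (hfin.image (fun y : GG (A := VA k) (Lam k) M hM => y.left.1)).subset ?_
    rintro _ ⟨g, rfl⟩
    refine ⟨inr g * x * (inr g)⁻¹, ⟨inr g, rfl⟩, ?_⟩
    show (inr g * x * (inr g)⁻¹).left.1 = _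
    rw [h2, ← map_inv, ← inl_aut, left_inl]
    rfl
  rw [h2, show x.left = 1 from Subtype.ext h3, map_one]

end fld

end Pool.Agent.Y276.Rig
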