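import Mathlib
import Pool.Agent.H197R3.Fin1

set_option autoImplicit false
set_option linter.unusedSectionVars false
set_option linter.unusedSimpArgs false

namespace Pool.Agent.Y276.Rig

open Pool.Agent.H197R3
open scoped InnerProductSpace ComplexConjugate
open Polynomial SemidirectProduct

/-- Property (T) for a group generated by the images of two groups with `TData` that share the
elementary group. -/
theorem T_of_two {k : Type} [Field k] [Fintype k] [CharP k 2]
    {Ga Gb GG' : Type} [Group Ga] [Group Gb] [Group GG']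
    (hk : 7 ≤ Fintype.card k) (D : TData k Ga) (D' : TData k Gb) (f : Ga →* GG') (f' : Gb →* GG')
    (hlam : ∀ g, f (D.lam g) = f' (D'.lam g)) (hgen : ∀ x : GG', ∃ y y', x = f y * f' y') :
    ∃ S : Finset GG', ∃ ε : ℝ, 0 < ε ∧
      ∀ (E : Type) [NormedAddCommGroup E] [InnerProductSpace ℂ E] [CompleteSpace E]
        (π : GG' →* (E →L[ℂ] E)),
        (∀ g : GG', π g ∈ unitary (E →L[ℂ] E)) →
        (∃ v : E, ‖v‖ = 1 ∧ ∀ s ∈ S, ‖(π s) v - v‖ < ε) →
        ∃ w : E, w ≠ 0 ∧ ∀ g : GG', (π g) w = w := by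
  classical
  refine ⟨(Finset.univ.image fun a => f (D.lam (xh d01 (ιC k) a))) ∪
    (Finset.univ.image fun a => f (D.lam (xh d12 (ιC k) a))) ∪
    (Finset.univ.image fun a => f (D.lam (xh d20 (ι2 k) a))) ∪
    (Finset.univ.image fun i : Fin 3 => f (D.u (Pi.single i 1))) ∪
    (Finset.univ.image fun p : Fin 3 × Fin 3 => f (zz D.u (Pi.single p.1 1) (Pi.single p.2 1))) ∪
    (Finset.univ.image fun i : Fin 3 => f' (D'.u (Pi.single i 1))) ∪
    (Finset.univ.image fun p : Fin 3 × Fin 3 => f' (zz D'.u (Pi.single p.1 1) (Pi.single p.2 1))),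
    1/100000, by norm_num, ?_⟩
  intro E _ _ _ π hπ ⟨v, hv, hS⟩
  have hS1 : ∀ a, ‖π (f (D.lam (xh d01 (ιC k) a))) v - v‖ < 1/100000 := fun a => hS _ (by
    simp only [Finset.mem_union, Finset.mem_image, Finset.mem_univ, true_and]
    exact Or.inl (Or.inl (Or.inl (Or.inl (Or.inl (Or.inl ⟨a, rfl⟩))))))
  have hS2 : ∀ a, ‖π (f (D.lam (xh d12 (ιC k) a))) v - v‖ < 1/100000 := fun a => hS _ (by
    simp only [Finset.mem_union, Finset.mem_image, Finset.mem_univ, true_and]
    exact Or.inl (Or.inl (Or.inl (Or.inl (Or.inl (Or.inr ⟨a, rfl⟩))))))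
  have hS3 : ∀ a, ‖π (f (D.lam (xh d20 (ι2 k) a))) v - v‖ < 1/100000 := fun a => hS _ (by
    simp only [Finset.mem_union, Finset.mem_image, Finset.mem_univ, true_and]
    exact Or.inl (Or.inl (Or.inl (Or.inl (Or.inr ⟨a, rfl⟩)))))
  have hS4 : ∀ i : Fin 3, ‖π (f (D.u (Pi.single i 1))) v - v‖ < 1/100000 := fun i => hS _ (by
    simp only [Finset.mem_union, Finset.mem_image, Finset.mem_univ, true_and]
    exact Or.inl (Or.inl (Or.inl (Or.inr ⟨i, rfl⟩))))
  have hS5 : ∀ i j : Fin 3, ‖π (f (zz D.u (Pi.single i 1) (Pi.single j 1))) v - v‖ < 1/100000 :=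
    fun i j => hS _ (by
      simp only [Finset.mem_union, Finset.mem_image, Finset.mem_univ, true_and]
      exact Or.inl (Or.inl (Or.inr ⟨(i, j), rfl⟩)))
  have hS6 : ∀ i : Fin 3, ‖π (f' (D'.u (Pi.single i 1))) v - v‖ < 1/100000 := fun i => hS _ (by
    simp only [Finset.mem_union, Finset.mem_image, Finset.mem_univ, true_and]
    exact Or.inl (Or.inr ⟨i, rfl⟩))
  have hS7 : ∀ i j : Fin 3, ‖π (f' (zz D'.u (Pi.single i 1) (Pi.single j 1))) v - v‖ < 1/100000 :=
    fun i j => hS _ (by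
      simp only [Finset.mem_union, Finset.mem_image, Finset.mem_univ, true_and]
      exact Or.inr ⟨(i, j), rfl⟩)
  obtain ⟨ξ, hξ, hvξ⟩ := lam_inv ((π.comp f).comp D.lam) (fun g => hπ _) hk v (1/100000)
    (fun a => (hS1 a).le) (fun a => (hS2 a).le) (fun a => (hS3 a).le)
  have hξ1 : ∀ g, (π.comp f) (D.lam g) ξ = ξ := fun g => hξ g
  have hξ2 : ∀ g, (π.comp f') (D'.lam g) ξ = ξ := fun g => by
    have := hξ g
    show π (f' (D'.lam g)) ξ = ξ
    rw [← hlam]; exact this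
  have hell : ∀ s : GG', ‖π s v - v‖ < 1/100000 → ‖π s ξ - ξ‖ ≤ 121/100000 := by
    intro s hs
    have e : π s ξ - ξ = - π s (v - ξ) + (π s v - v) + (v - ξ) := by rw [map_sub]; abel
    rw [e]
    calc _ ≤ ‖- π s (v - ξ)‖ + ‖π s v - v‖ + ‖v - ξ‖ := norm_add₃_le
      _ = ‖v - ξ‖ + ‖π s v - v‖ + ‖v - ξ‖ := by rw [norm_neg, norm_π π hπ]
      _ ≤ 121/100000 := by linarith
  have hb := all_bound D (π.comp f) (fun g => hπ _) ξ hξ1 (121/100000)
    (fun i j _ => hell _ (hS5 i j)) (fun i => hell _ (hS4 i))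
  have hb' := all_bound D' (π.comp f') (fun g => hπ _) ξ hξ2 (121/100000)
    (fun i j _ => hell _ (hS7 i j)) (fun i => hell _ (hS6 i))
  have hξn : 1 - 60 * (1/100000) ≤ ‖ξ‖ := by
    have h1 := norm_sub_norm_le v ξ
    rw [hv] at h1
    linarith
  refine exists_inv π hπ ξ (660 * (121/100000)) (by linarith) ?_
  intro x
  obtain ⟨y, y', rfl⟩ := hgen x
  have h1 := ell_mul π hπ ξ (f y) (f' y')
  have h2 : ell π ξ (f y) ≤ 330 * (121/100000) := hb y
  have h3 : ell π ξ (f' y') ≤ 330 * (121/100000) := hb' y'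
  have h4 : ‖π (f y * f' y') ξ - ξ‖ = ell π ξ (f y * f' y') := rfl
  rw [h4]
  linarith

section two
variable {A : Type} [AddCommGroup A] {Λ : Type} [Group Λ] [DistribMulAction Λ A]

variable (A) in
/-- the subgroup generated by the `gg a` -/
noncomputable def Mg : Subgroup (XX A → Circle) := Subgroup.closure (Set.range gg)
variable (A) in
/-- the subgroup generated by the `hh a` -/
noncomputable def Mh : Subgroup (XX A → Circle) := Subgroup.closure (Set.range hh)

lemma gg_memg (a : A) : gg a ∈ Mg A := Subgroup.subset_closure ⟨a, rfl⟩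
lemma hh_memh (a : A) : hh a ∈ Mh A := Subgroup.subset_closure ⟨a, rfl⟩

lemma inv_Mg : Inv' Λ (Mg A) := by
  intro g m hm
  induction hm using Subgroup.closure_induction with
  | mem z hz => obtain ⟨a, rfl⟩ := hz; exact gg_memg (g • a)
  | one => exact one_mem _
  | mul p q _ _ hp hq => exact mul_mem hp hq
  | inv p _ hp => exact inv_mem hp

lemma inv_Mh : Inv' Λ (Mh A) := by
  intro g m hm
  induction hm using Subgroup.closure_induction with
  | mem z hz => obtain ⟨a, rfl⟩ := hz; exact hh_memh (g • a)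
  | one => exact one_mem _
  | mul p q _ _ hp hq => exact mul_mem hp hq
  | inv p _ hp => exact inv_mem hp

lemma Mg_le : Mg A ≤ M2 A := Subgroup.closure_mono Set.subset_union_left
lemma Mh_le : Mh A ≤ M2 A := Subgroup.closure_mono Set.subset_union_right

lemma M2_split (m : M2 A) : ∃ p : Mg A, ∃ q : Mh A,
    m = Subgroup.inclusion Mg_le p * Subgroup.inclusion Mh_le q := by
  have h1 : M2 A = Mg A ⊔ Mh A := Subgroup.closure_union _ _
  have h2 : m.1 ∈ Mg A ⊔ Mh A := by rw [← h1]; exact m.2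
  rw [Subgroup.mem_sup] at h2
  obtain ⟨p, hp, q, hq, hpq⟩ := h2
  exact ⟨⟨p, hp⟩, ⟨q, hq⟩, Subtype.ext hpq.symm⟩

/-- inclusion of semidirect products -/
noncomputable def incl (M M' : Subgroup (XX A → Circle)) (hM : Inv' Λ M) (hM' : Inv' Λ M')
    (h : M ≤ M') : GG (A := A) Λ M hM →* GG (A := A) Λ M' hM' :=
  SemidirectProduct.map (Subgroup.inclusion h) (MonoidHom.id Λ) (by
    intro g
    ext m : 1
    rfl)

end two

section data
variable (k : Type) [Field k] [CharP k 2]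

lemma zz_gg_one (a b : VA k) : (gg a * gg b * (gg (a + b))⁻¹ : XX (VA k) → Circle) = 1 := by
  funext x
  simp only [Pi.mul_apply, Pi.inv_apply, gg, map_add, sg_add, Pi.one_apply]
  exact mul_inv_cancel _

lemma zz_hh_apply (a b : VA k) (x : XX (VA k)) : (hh a * hh b * (hh (a + b))⁻¹) x =
    sg (x.2.1 a + x.2.1 b + x.2.1 (a + b)) := by
  have h2 : (sg (x.2.1 (a + b)))⁻¹ = sg (x.2.1 (a + b)) := by
    rw [inv_eq_iff_mul_eq_one]; exact sg_sq _
  show sg (x.2.1 a) * sg (x.2.1 b) * (sg (x.2.1 (a + b)))⁻¹ = _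
  rw [h2, sg_add, sg_add]

lemma zz_hh_add (a a' b : VA k) :
    (hh (a + a') * hh b * (hh (a + a' + b))⁻¹ : XX (VA k) → Circle) =
    (hh a * hh b * (hh (a + b))⁻¹) * (hh a' * hh b * (hh (a' + b))⁻¹) := by
  funext x
  rw [Pi.mul_apply (hh a * hh b * (hh (a + b))⁻¹), zz_hh_apply, zz_hh_apply, zz_hh_apply, ← sg_add]
  congr 1
  have h := quad_rel x.2 a a' b
  have h2 : (2 : ZMod 2) = 0 := rfl
  linear_combination h - (x.2.1 a + x.2.1 a' + x.2.1 b + x.2.1 (a + b) + x.2.1 (a' + b)) * h2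

/-- `TData` of `Mg ⋊ Λ` -/
noncomputable def dataG : TData k (GG (A := VA k) (Lam k) (Mg (VA k)) inv_Mg) where
  lam := inr
  u a := inl ⟨gg a, gg_memg a⟩
  ucomm a b := by
    rw [← map_mul, ← map_mul, mul_comm]
  zadd a a' b := by
    have key : ∀ a b : VA k, zz (fun a => (inl ⟨gg a, gg_memg a⟩ :
        GG (A := VA k) (Lam k) (Mg (VA k)) inv_Mg)) a b = 1 := by
      intro a b
      unfold zz
      have h : (⟨gg a, gg_memg a⟩ * ⟨gg b, gg_memg b⟩ * (⟨gg (a + b), gg_memg (a + b)⟩)⁻¹ :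
          Mg (VA k)) = 1 := Subtype.ext (zz_gg_one k a b)
      rw [← map_mul, ← map_inv, ← map_mul, h, map_one]
    rw [key, key, key, one_mul]
  cj g a := by
    rw [← map_inv, ← inl_aut]
    rfl
  gen x := by
    refine ⟨inl x.left, ?_, x.right, (inl_left_mul_inr_right x).symm⟩
    obtain ⟨m, hm⟩ := x.left
    induction hm using Subgroup.closure_induction with
    | mem z hz => obtain ⟨a, rfl⟩ := hz; exact Subgroup.subset_closure ⟨a, rfl⟩
    | one =>
      rw [show (⟨1, one_mem _⟩ : Mg (VA k)) = 1 from rfl, map_one]; exact one_mem _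
    | mul p q hp' hq' hp hq =>
      have e : (⟨p * q, mul_mem hp' hq'⟩ : Mg (VA k)) = ⟨p, hp'⟩ * ⟨q, hq'⟩ := rfl
      rw [e, map_mul]; exact mul_mem hp hq
    | inv p hp' hp =>
      have e : (⟨p⁻¹, inv_mem hp'⟩ : Mg (VA k)) = (⟨p, hp'⟩ : Mg (VA k))⁻¹ := rfl
      rw [e, map_inv]; exact inv_mem hp

/-- `TData` of `Mh ⋊ Λ` -/
noncomputable def dataH : TData k (GG (A := VA k) (Lam k) (Mh (VA k)) inv_Mh) where
  lam := inr
  u a := inl ⟨hh a, hh_memh a⟩
  ucomm a b := by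
    rw [← map_mul, ← map_mul, mul_comm]
  zadd a a' b := by
    have key : ∀ a b : VA k, zz (fun a => (inl ⟨hh a, hh_memh a⟩ :
        GG (A := VA k) (Lam k) (Mh (VA k)) inv_Mh)) a b =
        inl (⟨hh a, hh_memh a⟩ * ⟨hh b, hh_memh b⟩ * (⟨hh (a + b), hh_memh (a + b)⟩)⁻¹ :
          Mh (VA k)) := by
      intro a b
      unfold zz
      rw [map_mul, map_mul, map_inv]
    rw [key, key, key, ← map_mul]
    congr 1
    apply Subtype.ext
    exact zz_hh_add k a a' b
  cj g a := by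
    rw [← map_inv, ← inl_aut]
    rfl
  gen x := by
    refine ⟨inl x.left, ?_, x.right, (inl_left_mul_inr_right x).symm⟩
    obtain ⟨m, hm⟩ := x.left
    induction hm using Subgroup.closure_induction with
    | mem z hz => obtain ⟨a, rfl⟩ := hz; exact Subgroup.subset_closure ⟨a, rfl⟩
    | one =>
      rw [show (⟨1, one_mem _⟩ : Mh (VA k)) = 1 from rfl, map_one]; exact one_mem _
    | mul p q hp' hq' hp hq =>
      have e : (⟨p * q, mul_mem hp' hq'⟩ : Mh (VA k)) = ⟨p, hp'⟩ * ⟨q, hq'⟩ := rfl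
      rw [e, map_mul]; exact mul_mem hp hq
    | inv p hp' hp =>
      have e : (⟨p⁻¹, inv_mem hp'⟩ : Mh (VA k)) = (⟨p, hp'⟩ : Mh (VA k))⁻¹ := rfl
      rw [e, map_inv]; exact inv_mem hp

end data

/-- Property (T) for the second group. -/
theorem T_Gr2 {k : Type} [Field k] [Fintype k] [CharP k 2] (hk : 7 ≤ Fintype.card k) :
    ∃ S : Finset (Gr2 k), ∃ ε : ℝ, 0 < ε ∧
      ∀ (E : Type) [NormedAddCommGroup E] [InnerProductSpace ℂ E] [CompleteSpace E]
        (π : Gr2 k →* (E →L[ℂ] E)),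
        (∀ g : Gr2 k, π g ∈ unitary (E →L[ℂ] E)) →
        (∃ v : E, ‖v‖ = 1 ∧ ∀ s ∈ S, ‖(π s) v - v‖ < ε) →
        ∃ w : E, w ≠ 0 ∧ ∀ g : Gr2 k, (π g) w = w := by
  refine T_of_two hk (dataG k) (dataH k) (incl _ _ inv_Mg inv_M2 Mg_le)
    (incl _ _ inv_Mh inv_M2 Mh_le) ?_ ?_
  · intro g
    show incl _ _ inv_Mg inv_M2 Mg_le (inr g) = incl _ _ inv_Mh inv_M2 Mh_le (inr g)
    rw [incl, incl, SemidirectProduct.map_inr, SemidirectProduct.map_inr]
  · intro x
    obtain ⟨p, q, hpq⟩ := M2_split x.left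
    refine ⟨inl p, inl q * inr x.right, ?_⟩
    rw [map_mul, incl, incl, SemidirectProduct.map_inl, SemidirectProduct.map_inl,
      SemidirectProduct.map_inr, ← mul_assoc, ← map_mul, ← hpq]
    exact (inl_left_mul_inr_right x).symm

end Pool.Agent.Y276.Rig
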